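import Pool.Agent.W7h60.LP.Op

set_option autoImplicit false
set_option linter.unusedSectionVars false

open scoped InnerProductSpace InnerProduct ENNReal

/-! Consequences of the leading part inequality: point stabilisers, zero divisors, left orders. -/

namespace Pool.Agent.W7h60.LP

open Pool.Agent.W649.ZL

universe u v w z

section stab

variable {G : Type u} {K : Type v} {L : Type z} [Group G] [Fintype K] [Fintype L]
  [DecidableEq K] [DecidableEq L]

theorem sub_inj (H : Subgroup G) (a b : G) : Function.Injective fun h : H => a * (h : G) * b := by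
  intro h h' e
  apply Subtype.ext
  have e' : a * (h : G) * b = a * (h' : G) * b := e
  simpa using e'

/-- the part of a matrix in the cosets `s k * H * (t j)⁻¹` -/
noncomputable def subP (H : Subgroup G) (s : K → G) (t : L → G) (A : K → L → (G →₀ ℂ)) :
    K → L → (H →₀ ℂ) :=
  fun k j => (A k j).comapDomain (fun h : H => s k * (h : G) * (t j)⁻¹)
    (sub_inj H _ _).injOn

theorem subP_apply (H : Subgroup G) (s : K → G) (t : L → G) (A : K → L → (G →₀ ℂ)) (k : K) (j : L)
    (h : H) : subP H s t A k j h = A k j (s k * h * (t j)⁻¹) := rfl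

theorem memlp_rs (H : Subgroup G) (s : K → G) (F : EE G K) :
    Memℓp (fun x : H × K => F (s x.2 * (x.1 : G), x.2)) 2 := by
  rw [memlp_two_iff]
  have h := (memlp_two_iff _).1 F.2
  refine h.comp_injective (i := fun x : H × K => (s x.2 * (x.1 : G), x.2)) ?_
  rintro ⟨x, k⟩ ⟨y, l⟩ e
  obtain ⟨e1, e2⟩ := Prod.mk.inj e
  subst e2
  simpa using e1

/-- restriction to the cosets `s k * H` -/
noncomputable def rs (H : Subgroup G) (s : K → G) (F : EE G K) : EE H K :=
  ⟨fun x : H × K => F (s x.2 * (x.1 : G), x.2), memlp_rs H s F⟩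

theorem rs_apply (H : Subgroup G) (s : K → G) (F : EE G K) (x : H × K) :
    rs H s F x = F (s x.2 * (x.1 : G), x.2) := rfl

theorem norm_rs_le (H : Subgroup G) (s : K → G) (F : EE G K) : ‖rs H s F‖ ≤ ‖F‖ := by
  have h1 : ‖rs H s F‖ ^ 2 ≤ ‖F‖ ^ 2 := by
    rw [norm_sq_eq_tsum, norm_sq_eq_tsum]
    have hinj : Function.Injective fun x : H × K => (s x.2 * (x.1 : G), x.2) := by
      rintro ⟨x, k⟩ ⟨y, l⟩ e
      obtain ⟨e1, e2⟩ := Prod.mk.inj e
      subst e2
      simpa using e1
    exact tsum_comp_le_tsum_of_inj ((memlp_two_iff _).1 F.2) (fun _ => by positivity) hinj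
  exact (sq_le_sq₀ (norm_nonneg _) (norm_nonneg _)).1 h1

theorem infDist_inv {I : Type v} (P : Submodule ℂ (EE G I)) (hP : W649.ZL.Inv P) (g : G) (i : I) :
    Metric.infDist (dl (g, i)) (P : Set (EE G I)) = Metric.infDist (dl ((1 : G), i)) (P : Set (EE G I)) := by
  have hiso : Isometry (tr g : EE G I → EE G I) := by
    apply Isometry.of_dist_eq
    intro f f'
    rw [dist_eq_norm, dist_eq_norm]
    have e : tr g f - tr g f' = tr g (f - f') := by ext x; rfl
    rw [e, norm_tr]
  have h1 : tr g '' (P : Set (EE G I)) = P := by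
    ext f
    constructor
    · rintro ⟨f, hf, rfl⟩
      exact hP g f hf
    · intro hf
      refine ⟨tr g⁻¹ f, hP _ _ hf, ?_⟩
      rw [tr_tr, mul_inv_cancel, tr_one]
  have h2 := Metric.infDist_image hiso (x := (dl (g, i) : EE G I)) (t := (P : Set (EE G I)))
  rw [h1, tr_dl, mul_inv_cancel] at h2
  exact h2.symm

/-- `kerDimM` is the dimension in terms of distances -/
theorem kerDimM_infDist (A : K → L → (G →₀ ℂ)) :
    kerDimM A = ∑ k : K, (1 - Metric.infDist (dl ((1 : G), k))
      (LinearMap.ker (op A : EE G K →ₗ[ℂ] EE G L) : Set (EE G K)) ^ 2) := by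
  rw [kerDimM_op, vd_eq_infDist _ (ContinuousLinearMap.isClosed_ker (op A))]

theorem ker_inv (A : K → L → (G →₀ ℂ)) :
    W649.ZL.Inv (LinearMap.ker (op A : EE G K →ₗ[ℂ] EE G L)) := by
  intro k f hf
  change op A (tr k f) = 0
  have hf' : op A f = 0 := hf
  rw [op_eqv, hf', tr_zero]

variable {Ω : Type w} [LinearOrder Ω] [MulAction G Ω]

theorem op_sub_rs (H : Subgroup G) (s : K → G) (t : L → G) (A B : K → L → (G →₀ ℂ))
    (hB : ∀ k j h, B k j h ≠ 0 → (s k)⁻¹ * h * t j ∈ H)
    (hBA : ∀ k j h, (s k)⁻¹ * h * t j ∈ H → B k j h = A k j h) (F : EE G K) (u : H) (j : L) :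
    op (subP H s t A) (rs H s F) (u, j) = op B F (t j * (u : G), j) := by
  rw [op_apply, op_apply]
  refine Finset.sum_congr rfl fun k _ => ?_
  refine Finset.sum_bij (fun h _ => s k * (h : G) * (t j)⁻¹) ?_ ?_ ?_ ?_
  · intro h hh
    rw [Finsupp.mem_support_iff] at hh ⊢
    rw [hBA k j _ (by
      have e : (s k)⁻¹ * (s k * (h : G) * (t j)⁻¹) * t j = h := by group
      rw [e]
      exact h.2)]
    exact hh
  · intro h _ h' _ e
    exact sub_inj H _ _ e
  · intro g hg
    have h1 := hB k j g (Finsupp.mem_support_iff.1 hg)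
    refine ⟨⟨_, h1⟩, ?_, ?_⟩
    · rw [Finsupp.mem_support_iff, subP_apply]
      have e : s k * ((s k)⁻¹ * g * t j) * (t j)⁻¹ = g := by group
      change A k j (s k * ((s k)⁻¹ * g * t j) * (t j)⁻¹) ≠ 0
      rw [e, ← hBA k j g h1]
      exact Finsupp.mem_support_iff.1 hg
    · change s k * ((s k)⁻¹ * g * t j) * (t j)⁻¹ = g
      group
  · intro h _
    rw [subP_apply, rs_apply, hBA k j (s k * (h : G) * (t j)⁻¹) (by
      have e : (s k)⁻¹ * (s k * (h : G) * (t j)⁻¹) * t j = h := by group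
      rw [e]
      exact h.2)]
    have e : (s k * ((h * u : H) : G), k) = (s k * (h : G) * (t j)⁻¹ * (t j * (u : G)), k) := by
      rw [Subgroup.coe_mul]
      congr 1
      group
    exact congrArg (fun y => A k j (s k * (h : G) * (t j)⁻¹) * F y) e

/-- **Point stabilisers.** -/
theorem stabilizer_le (hm : ∀ (g : G) (a b : Ω), a ≤ b → g • a ≤ g • b) (ω : Ω) (s : K → G)
    (t : L → G) (A : K → L → (G →₀ ℂ))
    (hA : ∀ k j h, A k j h ≠ 0 → s k • ω ≤ h • t j • ω) :
    kerDimM A ≤ kerDimM (subP (MulAction.stabilizer G ω) s t A) := by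
  set H := MulAction.stabilizer G ω with hH
  refine (leading hm (fun k => s k • ω) (fun j => t j • ω) A hA).trans ?_
  set B := leadP (fun k => s k • ω) (fun j => t j • ω) A with hBdef
  have hiff : ∀ k j (h : G), h • t j • ω = s k • ω ↔ (s k)⁻¹ * h * t j ∈ H := by
    intro k j h
    rw [hH, MulAction.mem_stabilizer_iff, mul_smul, mul_smul, inv_smul_eq_iff]
  have hB : ∀ k j h, B k j h ≠ 0 → (s k)⁻¹ * h * t j ∈ H := by
    intro k j h hne
    rw [hBdef] at hne
    unfold leadP at hne
    rw [Finsupp.filter_apply] at hne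
    by_contra hcon
    rw [if_neg (fun h2 => hcon ((hiff k j h).1 h2))] at hne
    exact hne rfl
  have hBA : ∀ k j h, (s k)⁻¹ * h * t j ∈ H → B k j h = A k j h := by
    intro k j h hh
    rw [hBdef]
    unfold leadP
    rw [Finsupp.filter_apply, if_pos ((hiff k j h).2 hh)]
  rw [kerDimM_infDist, kerDimM_infDist]
  refine Finset.sum_le_sum fun k _ => ?_
  set P := LinearMap.ker (op B : EE G K →ₗ[ℂ] EE G L)
  set Q := LinearMap.ker (op (subP H s t A) : EE H K →ₗ[ℂ] EE H L)
  have h1 : Metric.infDist (dl ((1 : H), k)) (Q : Set (EE H K))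
      ≤ Metric.infDist (dl ((1 : G), k)) (P : Set (EE G K)) := by
    rw [← infDist_inv P (ker_inv B) (s k) k]
    rw [Metric.le_infDist ⟨0, P.zero_mem⟩]
    intro F hF
    have hF' : op B F = 0 := hF
    have h2 : rs H s F ∈ (Q : Set (EE H K)) := by
      change op (subP H s t A) (rs H s F) = 0
      ext ⟨u, j⟩
      rw [op_sub_rs H s t A B hB hBA, hF']
      rfl
    refine (Metric.infDist_le_dist_of_mem h2).trans ?_
    rw [dist_eq_norm, dist_eq_norm]
    have h3 : (dl ((1 : H), k) : EE H K) = rs H s (dl (s k, k)) := by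
      ext ⟨h, l⟩
      rw [rs_apply]
      by_cases hx : (h, l) = ((1 : H), k)
      · rw [hx, dl_apply_self]
        change 1 = dl (s k, k) (s k * ((1 : H) : G), k)
        rw [Subgroup.coe_one, mul_one, dl_apply_self]
      · rw [dl_apply_ne _ _ hx, dl_apply_ne]
        intro e
        obtain ⟨e1, e2⟩ := Prod.mk.inj e
        apply hx
        subst e2
        have : (h : G) = 1 := by simpa using e1
        rw [OneMemClass.coe_eq_one] at this
        rw [this]
    have h4 : rs H s (dl (s k, k)) - rs H s F = rs H s (dl (s k, k) - F) := by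
      ext x; rfl
    rw [h3, h4]
    exact norm_rs_le H s _
  have h0 : 0 ≤ Metric.infDist (dl ((1 : H), k)) (Q : Set (EE H K)) := Metric.infDist_nonneg
  nlinarith

end stab

section const

variable {G : Type u} {K : Type v} {L : Type z} [Group G] [Fintype K] [Fintype L]
  [DecidableEq K] [DecidableEq L]

/-- constant matrices -/
noncomputable def cm (N : K → L → ℂ) : K → L → (G →₀ ℂ) := fun k j => Finsupp.single 1 (N k j)

theorem op_cm (N : K → L → ℂ) (F : EE G K) (u : G) (j : L) :
    op (cm N) F (u, j) = ∑ k, N k j * F (u, k) := by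
  rw [op_apply]
  refine Finset.sum_congr rfl fun k _ => ?_
  have : ∑ h ∈ (cm (G := G) N k j).support, cm (G := G) N k j h * F (h * u, k)
      = (Finsupp.single (1 : G) (N k j)).sum fun h c => c * F (h * u, k) := rfl
  rw [this, Finsupp.sum_single_index (by rw [zero_mul]), one_mul]

theorem op_cm_comp {M : Type*} [Fintype M] [DecidableEq M] (N : K → L → ℂ) (N' : L → M → ℂ)
    (F : EE G K) :
    op (cm (G := G) N') (op (cm (G := G) N) F)
      = op (cm (G := G) fun k m => ∑ j, N k j * N' j m) F := by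
  ext ⟨u, m⟩
  rw [op_cm, op_cm]
  simp only [op_cm, Finset.mul_sum, Finset.sum_mul]
  rw [Finset.sum_comm]
  refine Finset.sum_congr rfl fun k _ => Finset.sum_congr rfl fun j _ => ?_
  ring

theorem op_cm_one (F : EE G K) : op (cm (G := G) fun k m => (1 : Matrix K K ℂ) k m) F = F := by
  ext ⟨u, m⟩
  rw [op_cm, Finset.sum_eq_single m]
  · rw [Matrix.one_apply_eq, one_mul]
  · intro k _ hk
    rw [Matrix.one_apply_ne hk, zero_mul]
  · intro h
    exact absurd (Finset.mem_univ _) h

end const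

section facto

theorem exists_factor {m n : ℕ} (M : Matrix (Fin m) (Fin n) ℂ) :
    ∃ (X : Matrix (Fin M.rank) (Fin m) ℂ) (Y : Matrix (Fin n) (Fin M.rank) ℂ), X * M * Y = 1 := by
  set f : (Fin n → ℂ) →ₗ[ℂ] (Fin m → ℂ) := M.mulVecLin with hf
  have hr : Module.finrank ℂ (LinearMap.range f) = M.rank := rfl
  set b := Module.finBasisOfFinrankEq ℂ (LinearMap.range f) hr with hb
  choose v hv using fun a => (b a).2
  let g : (Fin M.rank → ℂ) →ₗ[ℂ] (Fin n → ℂ) := (Pi.basisFun ℂ (Fin M.rank)).constr ℂ v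
  have hg : ∀ a, g (Pi.single a 1) = v a := by
    intro a
    have := (Pi.basisFun ℂ (Fin M.rank)).constr_basis ℂ v a
    rwa [Pi.basisFun_apply] at this
  have hfg : f ∘ₗ g = (LinearMap.range f).subtype ∘ₗ (b.equivFun.symm : (Fin M.rank → ℂ) →ₗ[ℂ] _) := by
    apply (Pi.basisFun ℂ (Fin M.rank)).ext
    intro a
    rw [Pi.basisFun_apply, LinearMap.comp_apply, LinearMap.comp_apply, hg, hv]
    simp
  have hinj : LinearMap.ker (f ∘ₗ g) = ⊥ := by
    rw [hfg, LinearMap.ker_eq_bot]
    exact Subtype.val_injective.comp b.equivFun.symm.injective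
  obtain ⟨h, hh⟩ := LinearMap.exists_leftInverse_of_injective _ hinj
  refine ⟨LinearMap.toMatrix' h, LinearMap.toMatrix' g, ?_⟩
  have e1 : LinearMap.toMatrix' f = M := by
    rw [hf, ← Matrix.toLin'_apply', LinearMap.toMatrix'_toLin']
  have e2 : M * LinearMap.toMatrix' g = LinearMap.toMatrix' (f ∘ₗ g) := by
    rw [LinearMap.toMatrix'_comp, e1]
  rw [Matrix.mul_assoc, e2, ← LinearMap.toMatrix'_comp, hh, LinearMap.toMatrix'_id]

end facto

section rank

variable {G : Type u} [Group G]

theorem vd_map_le {I J : Type*} [Fintype I] [Fintype J] (T : EE G I →L[ℂ] EE G J) (hT : Eqv T)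
    {U : Submodule ℂ (EE G I)} (hU : W649.ZL.Inv U) :
    vd (U.map (T : EE G I →ₗ[ℂ] EE G J)) ≤ vd U := by
  have h1 := rank_nullity T hT hU.topologicalClosure (Submodule.isClosed_topologicalClosure U)
  rw [vd_closure] at h1
  have h2 := vd_nonneg (U.topologicalClosure ⊓ LinearMap.ker (T : EE G I →ₗ[ℂ] EE G J))
  have h3 : vd (U.map (T : EE G I →ₗ[ℂ] EE G J))
      ≤ vd (U.topologicalClosure.map (T : EE G I →ₗ[ℂ] EE G J)) :=
    vd_mono (Submodule.map_mono (Submodule.le_topologicalClosure U))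
  linarith

theorem range_inv {I J : Type*} (T : EE G I →L[ℂ] EE G J) (hT : Eqv T) :
    W649.ZL.Inv (LinearMap.range (T : EE G I →ₗ[ℂ] EE G J)) := by
  rintro k _ ⟨f, rfl⟩
  exact ⟨tr k f, hT k f⟩

theorem vd_ker_add_range {I J : Type*} [Fintype I] [Fintype J] (T : EE G I →L[ℂ] EE G J)
    (hT : Eqv T) : vd (LinearMap.ker (T : EE G I →ₗ[ℂ] EE G J))
      + vd (LinearMap.range (T : EE G I →ₗ[ℂ] EE G J)) = Fintype.card I := by
  have c4 := rank_nullity T hT (U := ⊤) (fun _ _ _ => trivial) isClosed_univ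
  rw [top_inf_eq, Submodule.map_top, vd_top] at c4
  exact c4.symm

/-- a factorisation of the identity through `T` bounds the kernel dimension -/
theorem ker_le_of_factor {I J M : Type*} [Fintype I] [Fintype J] [Fintype M]
    (T : EE G I →L[ℂ] EE G J) (hT : Eqv T) (X : EE G M →L[ℂ] EE G I)
    (Y : EE G J →L[ℂ] EE G M) (hY : Eqv Y) (h : ∀ F, Y (T (X F)) = F) :
    vd (LinearMap.ker (T : EE G I →ₗ[ℂ] EE G J)) ≤ Fintype.card I - Fintype.card M := by
  have h1 := vd_ker_add_range T hT
  have h2 := vd_map_le Y hY (range_inv T hT)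
  have h3 : (LinearMap.range (T : EE G I →ₗ[ℂ] EE G J)).map (Y : EE G J →ₗ[ℂ] EE G M) = ⊤ := by
    rw [eq_top_iff]
    intro F _
    exact ⟨T (X F), ⟨X F, rfl⟩, h F⟩
  rw [h3, vd_top] at h2
  linarith

theorem kerDimM_cm {m n : ℕ} (M : Matrix (Fin m) (Fin n) ℂ) :
    kerDimM (cm (G := G) fun k j => M k j) ≤ m - M.rank := by
  obtain ⟨X, Y, hXY⟩ := exists_factor M
  have h := ker_le_of_factor (op (cm (G := G) fun k j => M k j)) (op_eqv _)
    (op (cm (G := G) fun k j => X k j)) (op (cm (G := G) fun k j => Y k j)) (op_eqv _) (by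
      intro F
      rw [op_cm_comp, op_cm_comp]
      have e : (fun k m_1 => ∑ j, X k j * ∑ j_1, M j j_1 * Y j_1 m_1)
          = fun k m => (1 : Matrix (Fin M.rank) (Fin M.rank) ℂ) k m := by
        funext k m
        rw [← hXY, Matrix.mul_assoc]
        rfl
      rw [e, op_cm_one])
  rw [Fintype.card_fin, Fintype.card_fin] at h
  rw [kerDimM_op]
  exact h

end rank

end Pool.Agent.W7h60.LP
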