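import Pool.Agent.W7h60.LP.Cor

set_option autoImplicit false
set_option linter.unusedSectionVars false

open scoped InnerProductSpace InnerProduct ENNReal

/-! Integrality consequences. -/

namespace Pool.Agent.W7h60.LP

open Pool.Agent.W649.ZL

universe u v w z

section low

variable {G : Type u} {K : Type v} {L : Type z} [Group G] [Fintype K] [Fintype L]
  [DecidableEq K] [DecidableEq L]

theorem kerDimM_nonneg (A : K → L → (G →₀ ℂ)) : 0 ≤ kerDimM A := by
  rw [kerDimM_op]
  exact vd_nonneg _

theorem kerDimM_le_card (A : K → L → (G →₀ ℂ)) : kerDimM A ≤ Fintype.card K := by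
  have h := vd_ker_add_range (op A) (op_eqv A)
  have h1 := vd_nonneg (LinearMap.range (op A : EE G K →ₗ[ℂ] EE G L))
  rw [kerDimM_op]
  linarith

theorem kerDimM_ge (A : K → L → (G →₀ ℂ)) :
    (Fintype.card K : ℝ) - Fintype.card L ≤ kerDimM A := by
  have h := vd_ker_add_range (op A) (op_eqv A)
  have h1 : vd (LinearMap.range (op A : EE G K →ₗ[ℂ] EE G L)) ≤ vd (⊤ : Submodule ℂ (EE G L)) :=
    vd_mono le_top
  rw [vd_top] at h1
  rw [kerDimM_op]
  linarith

/-- full rank -/
theorem kerDimM_eq_of_le {m n : ℕ} (A : Fin m → Fin n → (G →₀ ℂ))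
    (h : kerDimM A ≤ m - (min m n : ℕ)) : kerDimM A = m - (min m n : ℕ) := by
  apply le_antisymm h
  rcases le_total m n with hmn | hmn
  · rw [min_eq_left hmn, sub_self]
    exact kerDimM_nonneg A
  · rw [min_eq_right hmn]
    have := kerDimM_ge A
    rw [Fintype.card_fin, Fintype.card_fin] at this
    exact this

/-- one entry -/
theorem kerDimM_single_le {m n : ℕ} (A : Fin m → Fin n → (G →₀ ℂ)) (i : Fin m) (j : Fin n)
    (h : kerDimM (fun _ _ : Fin 1 => A i j) = 0) : kerDimM A ≤ m - 1 := by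
  -- the first coordinate
  set X : EE G (Fin 1) →L[ℂ] EE G (Fin m) :=
    op (cm (G := G) fun _ k => if k = i then 1 else 0) with hX
  set Y : EE G (Fin n) →L[ℂ] EE G (Fin 1) :=
    op (cm (G := G) fun k _ => if k = j then 1 else 0) with hY
  have hYXA : ∀ F, Y (op A (X F)) = op (fun _ _ : Fin 1 => A i j) F := by
    intro F
    ext ⟨u, a⟩
    rw [hY, op_cm, Finset.sum_eq_single j]
    · rw [if_pos rfl, one_mul, op_apply, op_apply, Finset.sum_eq_single i]
      · rw [Finset.univ_unique, Finset.sum_singleton]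
        refine Finset.sum_congr rfl fun h _ => ?_
        rw [hX, op_cm, Finset.univ_unique, Finset.sum_singleton, if_pos rfl, one_mul]
      · intro k _ hk
        refine Finset.sum_eq_zero fun h _ => ?_
        rw [hX, op_cm, Finset.univ_unique, Finset.sum_singleton, if_neg hk, zero_mul, mul_zero]
      · intro hh
        exact absurd (Finset.mem_univ _) hh
    · intro k _ hk
      rw [if_neg hk, zero_mul]
    · intro hh
      exact absurd (Finset.mem_univ _) hh
  have hYe : Eqv Y := op_eqv _
  have h1 := vd_ker_add_range (op A) (op_eqv A)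
  have h2 := vd_map_le Y hYe (range_inv (op A) (op_eqv A))
  have h3 := vd_ker_add_range (op (fun _ _ : Fin 1 => A i j)) (op_eqv _)
  rw [← kerDimM_op, h, zero_add, Fintype.card_fin, Nat.cast_one] at h3
  have h4 : LinearMap.range (op (fun _ _ : Fin 1 => A i j) : EE G (Fin 1) →ₗ[ℂ] EE G (Fin 1))
      ≤ (LinearMap.range (op A : EE G (Fin m) →ₗ[ℂ] EE G (Fin n))).map
        (Y : EE G (Fin n) →ₗ[ℂ] EE G (Fin 1)) := by
    rintro _ ⟨F, rfl⟩
    exact ⟨op A (X F), ⟨X F, rfl⟩, hYXA F⟩
  have h5 := vd_mono h4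
  rw [h3] at h5
  rw [kerDimM_op]
  rw [Fintype.card_fin] at h1
  linarith

/-- one row or one column -/
theorem int_of_single {m n : ℕ} (hmn : m = 1 ∨ n = 1)
    (hG : ∀ a : G →₀ ℂ, a ≠ 0 → kerDimM (fun _ _ : Fin 1 => a) = 0)
    (A : Fin m → Fin n → (G →₀ ℂ)) : ∃ d : ℤ, kerDimM A = d := by
  by_cases hA : ∃ i j, A i j ≠ 0
  · obtain ⟨i, j, hij⟩ := hA
    have h1 := kerDimM_single_le A i j (hG _ hij)
    rcases hmn with rfl | rfl
    · refine ⟨0, ?_⟩
      have h2 := kerDimM_nonneg A
      rw [Nat.cast_one, sub_self] at h1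
      rw [Int.cast_zero]
      linarith
    · refine ⟨(m : ℤ) - 1, ?_⟩
      have h2 := kerDimM_ge A
      rw [Fintype.card_fin, Fintype.card_fin, Nat.cast_one] at h2
      push_cast
      linarith
  · push Not at hA
    refine ⟨m, ?_⟩
    have h0 : op A = 0 := by
      ext F ⟨u, j⟩
      rw [op_apply]
      refine Finset.sum_eq_zero fun k _ => ?_
      rw [hA k j]
      simp
    have h1 := vd_ker_add_range (op A) (op_eqv A)
    have h2 : LinearMap.range (op A : EE G (Fin m) →ₗ[ℂ] EE G (Fin n)) = ⊥ := by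
      rw [h0]
      exact LinearMap.range_zero
    rw [h2, vd_bot, add_zero, ← kerDimM_op, Fintype.card_fin] at h1
    rw [h1]
    simp

end low

section zd

variable {G : Type u} [Group G] {Ω : Type w} [LinearOrder Ω] [MulAction G Ω]

/-- elements of the group algebra of the group, from those of a point stabiliser -/
theorem elements_of_stabilizer (hm : ∀ (g : G) (a b : Ω), a ≤ b → g • a ≤ g • b) (ω : Ω)
    (hH : ∀ a : MulAction.stabilizer G ω →₀ ℂ, a ≠ 0 → kerDimM (fun _ _ : Fin 1 => a) = 0)
    (a : G →₀ ℂ) (ha : a ≠ 0) : kerDimM (fun _ _ : Fin 1 => a) = 0 := by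
  classical
  have hne : a.support.Nonempty := Finsupp.support_nonempty_iff.2 ha
  obtain ⟨h0, hh0, hmin⟩ := Finset.exists_min_image a.support (fun h => h • ω) hne
  have h1 := stabilizer_le hm ω (fun _ : Fin 1 => h0) (fun _ : Fin 1 => (1 : G))
    (fun _ _ : Fin 1 => a) (by
      intro k j h hne
      rw [one_smul]
      exact hmin h (Finsupp.mem_support_iff.2 hne))
  have h2 : subP (MulAction.stabilizer G ω) (fun _ : Fin 1 => h0) (fun _ : Fin 1 => (1 : G))
      (fun _ _ : Fin 1 => a)
      = fun _ _ : Fin 1 => subP (MulAction.stabilizer G ω) (fun _ : Fin 1 => h0)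
        (fun _ : Fin 1 => (1 : G)) (fun _ _ : Fin 1 => a) 0 0 := by
    funext i j
    rw [Subsingleton.elim i 0, Subsingleton.elim j 0]
  rw [h2, hH] at h1
  · exact le_antisymm h1 (kerDimM_nonneg _)
  · intro h3
    have h4 := congrArg (fun f : MulAction.stabilizer G ω →₀ ℂ => f 1) h3
    simp only [subP_apply, Finsupp.zero_apply] at h4
    rw [Subgroup.coe_one, mul_one, inv_one, mul_one] at h4
    exact (Finsupp.mem_support_iff.1 hh0) h4

end zd

section lo

variable {G : Type u} [Group G] [LinearOrder G]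

theorem left_ordered_le (hm : ∀ a b c : G, a ≤ b → c * a ≤ c * b) {m n : ℕ} (s : Fin m → G)
    (t : Fin n → G) (A : Fin m → Fin n → (G →₀ ℂ))
    (hA : ∀ i j h, A i j h ≠ 0 → s i ≤ h * t j) :
    kerDimM A ≤ m - (Matrix.of fun i j => A i j (s i * (t j)⁻¹) : Matrix (Fin m) (Fin n) ℂ).rank := by
  have h1 := stabilizer_le (Ω := G) (fun g a b h => hm a b g h) (1 : G) s t A (by
    intro i j h hne
    rw [smul_eq_mul, smul_eq_mul, smul_eq_mul, mul_one, mul_one]
    exact hA i j h hne)
  refine h1.trans ?_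
  have hone : ∀ h : MulAction.stabilizer G (1 : G), h = 1 := by
    intro h
    have := h.2
    rw [MulAction.mem_stabilizer_iff, smul_eq_mul, mul_one] at this
    exact Subtype.ext this
  have h2 : subP (MulAction.stabilizer G (1 : G)) s t A
      = cm (G := MulAction.stabilizer G (1 : G)) fun i j =>
        (Matrix.of fun i j => A i j (s i * (t j)⁻¹) : Matrix (Fin m) (Fin n) ℂ) i j := by
    funext i j
    ext h
    rw [hone h, subP_apply]
    unfold cm
    rw [Finsupp.single_eq_same, Subgroup.coe_one, mul_one]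
    rfl
  rw [h2]
  exact kerDimM_cm _

end lo

end Pool.Agent.W7h60.LP
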