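import Pool.Agent.W7h60.LP.Wand

set_option autoImplicit false
set_option linter.unusedSectionVars false

open scoped InnerProductSpace InnerProduct ENNReal

/-! The kernel dimension is at most that of the leading part. -/

namespace Pool.Agent.W7h60.LP

open Pool.Agent.W649.ZL

universe u v w z

variable {G : Type u} {I : Type v} {J : Type z} [Group G] {Ω : Type w} [LinearOrder Ω]
variable [MulAction G Ω] {e : EE G I →L[ℂ] EE G I} {ν : G × I → Ω}

theorem Sp_tr (hmono : ∀ (k : G) (a b : Ω), a < b → k • a < k • b)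
    (hν : ∀ (k : G) (x : G × I), ν (x.1 * k⁻¹, x.2) = k • ν x) (he : Eqv e) (k : G) {t : Ω}
    {f : EE G I} (hf : f ∈ Sp e ν t) : tr k f ∈ Sp e ν (k • t) := by
  have h : Sp e ν t ≤ (Sp e ν (k • t)).comap ((trL k : EE G I →L[ℂ] EE G I) : EE G I →ₗ[ℂ] EE G I) := by
    apply Sp_le
    · exact (isClosed_Sp e ν (k • t)).preimage (trL k).continuous
    · intro x hx
      change tr k (e (dl x)) ∈ Sp e ν (k • t)
      obtain ⟨h, i⟩ := x
      rw [← he k, tr_dl]
      apply mem_Sp
      have := hν k (h, i)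
      simp only at this
      rw [this]
      exact hmono k _ _ hx
  exact h hf

theorem wv_tr (hmono : ∀ (k : G) (a b : Ω), a < b → k • a < k • b)
    (hν : ∀ (k : G) (x : G × I), ν (x.1 * k⁻¹, x.2) = k • ν x) (he : Eqv e) (k : G) (x : G × I) :
    wv e ν (x.1 * k⁻¹, x.2) = tr k (wv e ν x) := by
  have h1 : e (dl (x.1 * k⁻¹, x.2)) = tr k (e (dl x)) := by
    obtain ⟨h, i⟩ := x
    rw [← he k, tr_dl]
  rw [wv_eq (hν k x), h1]
  have h2 : (Sp e ν (k • ν x)).starProjection (tr k (e (dl x)))
      = tr k ((Sp e ν (ν x)).starProjection (e (dl x))) := by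
    apply Submodule.eq_starProjection_of_mem_of_inner_eq_zero
    · exact Sp_tr hmono hν he k (Submodule.starProjection_apply_mem _ _)
    · intro y hy
      have h3 : tr k (e (dl x)) - tr k ((Sp e ν (ν x)).starProjection (e (dl x)))
          = tr k (e (dl x) - (Sp e ν (ν x)).starProjection (e (dl x))) := by
        ext; rfl
      rw [h3, inner_tr_left]
      apply Submodule.starProjection_inner_eq_zero
      have h4 := Sp_tr hmono hν he k⁻¹ hy
      rw [inv_smul_smul] at h4
      exact h4
  rw [h2]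
  unfold wv
  ext; rfl

theorem Th_eqv (hmono : ∀ (k : G) (a b : Ω), a < b → k • a < k • b)
    (hν : ∀ (k : G) (x : G × I), ν (x.1 * k⁻¹, x.2) = k • ν x) (he : Eqv e)
    (he1 : ∀ f, ‖e f‖ ≤ ‖f‖) : Eqv (Th e ν) := by
  intro k f
  have h : (Th e ν).comp (trL k) = (trL k).comp (Th e ν) := by
    apply clm_ext
    rintro ⟨h, i⟩
    rw [ContinuousLinearMap.comp_apply, ContinuousLinearMap.comp_apply, trL_apply, trL_apply,
      tr_dl, Th_dl he1, Th_dl he1]
    exact wv_tr hmono hν he k (h, i)
  exact congrArg (fun A : EE G I →L[ℂ] EE G I => A f) h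

/-- **The leading part inequality** for operators. -/
theorem ker_le [Fintype I] [Fintype J] (T T0 : EE G I →L[ℂ] EE G J) (hT : Eqv T)
    (ν : G × I → Ω) (μ : G × J → Ω)
    (hmono : ∀ (k : G) (a b : Ω), a < b → k • a < k • b)
    (hν : ∀ (k : G) (x : G × I), ν (x.1 * k⁻¹, x.2) = k • ν x)
    (h1 : ∀ x y, T (dl x) y ≠ 0 → ν x ≤ μ y)
    (h0 : ∀ x y, ν x = μ y → T0 (dl x) y = T (dl x) y)
    (h0' : ∀ x y, ν x ≠ μ y → T0 (dl x) y = 0) :
    vd (LinearMap.ker (T : EE G I →ₗ[ℂ] EE G J))
      ≤ vd (LinearMap.ker (T0 : EE G I →ₗ[ℂ] EE G J)) := by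
  set K : Submodule ℂ (EE G I) := LinearMap.ker (T : EE G I →ₗ[ℂ] EE G J) with hK
  have hKc : IsClosed (K : Set (EE G I)) := ContinuousLinearMap.isClosed_ker T
  have : CompleteSpace K := hKc.completeSpace_coe
  have hKi : W649.ZL.Inv K := by
    intro k f hf
    change T (tr k f) = 0
    have hf' : T f = 0 := hf
    rw [hT, hf', tr_zero]
  set e : EE G I →L[ℂ] EE G I := Kᗮ.starProjection with he
  have hKoi : W649.ZL.Inv Kᗮ := by
    intro k f hf
    rw [Submodule.mem_orthogonal] at hf ⊢
    intro y hy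
    rw [← inner_conj_symm, inner_tr_left, inner_conj_symm]
    exact hf _ (hKi k⁻¹ y hy)
  have heq : Eqv e := proj_tr hKoi
  have he1 : ∀ f, ‖e f‖ ≤ ‖f‖ := fun f => Submodule.norm_starProjection_apply_le _ _
  have heT : ∀ f, T (e f) = T f := by
    intro f
    have h2 : Kᗮ.starProjection f = f - K.starProjection f := by
      rw [← Submodule.starProjection_orthogonal_val]
    rw [he, h2, map_sub]
    have h3 : T (K.starProjection f) = 0 := Submodule.starProjection_apply_mem K f
    rw [h3, sub_zero]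
  have hTe := Th_eqv hmono hν heq he1
  -- the range is orthogonal to the kernel
  have hran : ∀ f, Th e ν f ∈ Kᗮ :=
    Th_mem he1 (Submodule.isClosed_orthogonal K) (fun f => Submodule.starProjection_apply_mem _ _)
  -- the kernel of `Th` is contained in the kernel of `T0`
  have hker : LinearMap.ker (Th e ν : EE G I →ₗ[ℂ] EE G I)
      ≤ LinearMap.ker (T0 : EE G I →ₗ[ℂ] EE G J) := by
    intro f hf
    have hf' : Th e ν f = 0 := hf
    change T0 f = 0
    ext y
    -- only the level of `y` matters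
    have e1 : T0 f y = T (res (fun x => ν x = μ y) f) y := by
      have h : (innerSL ℂ (dl y : EE G J)).comp T0
          = (innerSL ℂ (dl y : EE G J)).comp (T.comp (res (fun x => ν x = μ y))) := by
        apply clm_ext
        intro x
        rw [ContinuousLinearMap.comp_apply, ContinuousLinearMap.comp_apply,
          ContinuousLinearMap.comp_apply]
        change ⟪dl y, T0 (dl x)⟫_ℂ = ⟪dl y, T (res (fun x => ν x = μ y) (dl x))⟫_ℂ
        rw [inner_dl_left, inner_dl_left]
        by_cases hx : ν x = μ y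
        · rw [res_dl_pos (P := fun x => ν x = μ y) hx, h0 x y hx]
        · rw [res_dl_neg (P := fun x => ν x = μ y) hx, h0' x y hx, map_zero]
          rfl
      have h2 := congrArg (fun A : EE G I →L[ℂ] ℂ => A f) h
      rw [ContinuousLinearMap.comp_apply, ContinuousLinearMap.comp_apply,
        ContinuousLinearMap.comp_apply] at h2
      have h3 : ⟪dl y, T0 f⟫_ℂ = ⟪dl y, T (res (fun x => ν x = μ y) f)⟫_ℂ := h2
      rw [inner_dl_left, inner_dl_left] at h3
      exact h3
    have e2 := Th_ker he1 hf' (μ y)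
    -- `T` maps `Sp` to functions vanishing at `y`
    have e3 : Sp e ν (μ y) ≤ LinearMap.ker (((innerSL ℂ (dl y : EE G J)).comp T :
        EE G I →L[ℂ] ℂ) : EE G I →ₗ[ℂ] ℂ) := by
      apply Sp_le
      · exact ContinuousLinearMap.isClosed_ker ((innerSL ℂ (dl y : EE G J)).comp T)
      · intro x hx
        change ⟪dl y, T (e (dl x))⟫_ℂ = 0
        rw [inner_dl_left, heT]
        by_contra hne
        exact absurd (h1 x y hne) (not_le.2 hx)
    have e4 : ⟪dl y, T (e (res (fun x => ν x = μ y) f))⟫_ℂ = 0 := e3 e2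
    rw [inner_dl_left, heT, ← e1] at e4
    rw [e4]
    rfl
  -- dimension count
  set R : Submodule ℂ (EE G I) := LinearMap.range (Th e ν : EE G I →ₗ[ℂ] EE G I) with hR
  have c1 : K ≤ R.topologicalClosureᗮ := by
    intro f hf
    rw [Submodule.mem_orthogonal]
    intro y hy
    have h2 : R.topologicalClosure ≤ Kᗮ := by
      apply Submodule.topologicalClosure_minimal _ _ (Submodule.isClosed_orthogonal K)
      rintro _ ⟨g, rfl⟩
      exact hran g
    exact Submodule.inner_left_of_mem_orthogonal hf (h2 hy)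
  have c2 := vd_mono c1
  have c3 := vd_sub (P := R.topologicalClosure) (Q := ⊤)
    (Submodule.isClosed_topologicalClosure _) isClosed_univ le_top
  rw [top_inf_eq, vd_closure] at c3
  have c4 := rank_nullity (Th e ν) hTe (U := ⊤) (fun _ _ _ => trivial) isClosed_univ
  rw [top_inf_eq, Submodule.map_top] at c4
  have c5 := vd_mono hker
  change vd K ≤ _
  linarith

end Pool.Agent.W7h60.LP
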