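import Pool.Agent.W649.ZL.Mat
import Pool.Agent.W7h60.LP.Lead

set_option autoImplicit false
set_option linter.unusedSectionVars false

open scoped InnerProductSpace InnerProduct ENNReal

/-! Matrices over group algebras: leading parts. -/

namespace Pool.Agent.W7h60.LP

open Pool.Agent.W649.ZL

universe u v w z

section op

variable {G : Type u} {K : Type v} {L : Type z} [Group G] [Fintype K] [Fintype L]
  [DecidableEq K] [DecidableEq L]

/-- right multiplication by a matrix, in the coordinates of `EE` -/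
noncomputable def op (A : K → L → (G →₀ ℂ)) : EE G K →L[ℂ] EE G L :=
  ∑ k, ∑ j, ∑ h ∈ (A k j).support, A k j h • elem h⁻¹ j k

theorem op_apply (A : K → L → (G →₀ ℂ)) (F : EE G K) (u : G) (j : L) :
    op A F (u, j) = ∑ k, ∑ h ∈ (A k j).support, A k j h * F (h * u, k) := by
  unfold op
  rw [sum_apply, sum_apply_EE]
  refine Finset.sum_congr rfl fun k _ => ?_
  rw [sum_apply, sum_apply_EE, Finset.sum_eq_single j]
  · rw [sum_apply, sum_apply_EE]
    refine Finset.sum_congr rfl fun h _ => ?_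
    change A k j h * (if j = j then F (h⁻¹⁻¹ * u, k) else 0) = _
    rw [if_pos rfl, inv_inv]
  · intro j' _ hj
    rw [sum_apply, sum_apply_EE]
    refine Finset.sum_eq_zero fun h _ => ?_
    change A k j' h * (if j = j' then F (h⁻¹⁻¹ * u, k) else 0) = _
    rw [if_neg (Ne.symm hj), mul_zero]
  · intro h
    exact absurd (Finset.mem_univ _) h

theorem op_eqv (A : K → L → (G →₀ ℂ)) : Eqv (op A) := by
  intro k f
  ext ⟨u, j⟩
  rw [op_apply, tr_apply, op_apply]
  refine Finset.sum_congr rfl fun i _ => Finset.sum_congr rfl fun h _ => ?_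
  rw [tr_apply, mul_assoc]

theorem op_dl (A : K → L → (G →₀ ℂ)) (x : G) (k : K) (u : G) (j : L) :
    op A (dl (x, k)) (u, j) = A k j (x * u⁻¹) := by
  rw [op_apply, Finset.sum_eq_single k]
  · by_cases hx : x * u⁻¹ ∈ (A k j).support
    · rw [Finset.sum_eq_single (x * u⁻¹)]
      · rw [inv_mul_cancel_right, dl_apply_self, mul_one]
      · intro h _ hne
        rw [dl_apply_ne, mul_zero]
        intro hh
        apply hne
        rw [← (Prod.mk.inj hh).1, mul_inv_cancel_right]
      · intro h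
        exact absurd hx h
    · rw [Finsupp.notMem_support_iff.1 hx]
      refine Finset.sum_eq_zero fun h hh => ?_
      rw [dl_apply_ne, mul_zero]
      intro heq
      apply hx
      rw [← (Prod.mk.inj heq).1, mul_inv_cancel_right]
      exact hh
  · intro k' _ hk
    refine Finset.sum_eq_zero fun h _ => ?_
    rw [dl_apply_ne, mul_zero]
    intro heq
    exact hk (Prod.mk.inj heq).2
  · intro h
    exact absurd (Finset.mem_univ _) h

theorem flp_image_op (A : K → L → (G →₀ ℂ)) :
    flp '' kernM A = (LinearMap.ker (op A : EE G K →ₗ[ℂ] EE G L) : Set (EE G K)) := by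
  have key : ∀ (x : lp (fun _ : K × G => ℂ) 2) (g : G) (j' : L),
      op A (flp x) (g⁻¹, j')
        = ∑ k' : K, ∑ y ∈ (A k' j').support, x (k', g * y⁻¹) * A k' j' y := by
    intro x g j'
    rw [op_apply]
    refine Finset.sum_congr rfl fun i _ => Finset.sum_congr rfl fun y _ => ?_
    rw [flp_apply, mul_inv_rev, inv_inv, mul_comm]
  ext F
  constructor
  · rintro ⟨x, hx, rfl⟩
    change op A (flp x) = 0
    ext ⟨u, j'⟩
    have := key x u⁻¹ j'
    rw [inv_inv] at this
    rw [this]
    exact hx j' u⁻¹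
  · intro hF
    obtain ⟨x, rfl⟩ := flp_surj F
    refine ⟨x, fun j' g => ?_, rfl⟩
    have hF' : op A (flp x) = 0 := hF
    rw [← key, hF']
    rfl

theorem kerDimM_op (A : K → L → (G →₀ ℂ)) :
    kerDimM A = vd (LinearMap.ker (op A : EE G K →ₗ[ℂ] EE G L)) := by
  unfold kerDimM
  rw [vd_eq_infDist _ (ContinuousLinearMap.isClosed_ker (op A))]
  refine Finset.sum_congr rfl fun i _ => ?_
  rw [← flp_image_op, ← flp_single, Metric.infDist_image isometry_flp]

end op

section lead

variable {G : Type u} {K : Type v} {L : Type z} [Group G] [Fintype K] [Fintype L]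
  [DecidableEq K] [DecidableEq L] {Ω : Type w} [LinearOrder Ω] [MulAction G Ω]

/-- the leading part: the terms `h` of the entry `A k j` with `h • β j = α k` -/
noncomputable def leadP (α : K → Ω) (β : L → Ω) (A : K → L → (G →₀ ℂ)) : K → L → (G →₀ ℂ) :=
  fun k j => (A k j).filter fun h => h • β j = α k

theorem smul_lt_smul_of (hm : ∀ (g : G) (a b : Ω), a ≤ b → g • a ≤ g • b) (g : G) (a b : Ω)
    (h : a < b) : g • a < g • b := by
  refine lt_of_le_of_ne (hm g a b h.le) fun he => h.ne ?_
  exact smul_left_cancel g he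

/-- **The leading part inequality** -/
theorem leading (hm : ∀ (g : G) (a b : Ω), a ≤ b → g • a ≤ g • b) (α : K → Ω) (β : L → Ω)
    (A : K → L → (G →₀ ℂ)) (hA : ∀ k j h, A k j h ≠ 0 → α k ≤ h • β j) :
    kerDimM A ≤ kerDimM (leadP α β A) := by
  rw [kerDimM_op, kerDimM_op]
  apply ker_le (Ω := Ω) (op A) (op (leadP α β A)) (op_eqv A)
    (fun x => x.1⁻¹ • α x.2) (fun x => x.1⁻¹ • β x.2) (smul_lt_smul_of hm)
  · rintro k ⟨x, i⟩
    change (x * k⁻¹)⁻¹ • α i = k • x⁻¹ • α i
    rw [mul_inv_rev, inv_inv, mul_smul]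
  · rintro ⟨x, k⟩ ⟨u, j⟩ h
    rw [op_dl] at h
    have h1 := hm x⁻¹ _ _ (hA k j _ h)
    rw [← mul_smul, inv_mul_cancel_left] at h1
    exact h1
  · rintro ⟨x, k⟩ ⟨u, j⟩ h
    rw [op_dl, op_dl]
    unfold leadP
    rw [Finsupp.filter_apply, if_pos]
    have h' : x⁻¹ • α k = u⁻¹ • β j := h
    rw [mul_smul, ← h', smul_inv_smul]
  · rintro ⟨x, k⟩ ⟨u, j⟩ h
    rw [op_dl]
    unfold leadP
    rw [Finsupp.filter_apply, if_neg]
    intro h2
    apply h
    change x⁻¹ • α k = u⁻¹ • β j
    rw [← h2, ← mul_smul, inv_mul_cancel_left]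

end lead

end Pool.Agent.W7h60.LP
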