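import Pool.Agent.W649.ZL.Dim

set_option autoImplicit false
set_option linter.unusedSectionVars false

open scoped InnerProductSpace InnerProduct ENNReal

/-! Wandering subspaces for groups acting on totally ordered sets. -/

namespace Pool.Agent.W7h60.LP

open Pool.Agent.W649.ZL

universe u v w z

section ortho

variable {E : Type*} [NormedAddCommGroup E] [InnerProductSpace ℂ E]

theorem norm_sum_sq {ι : Type*} (s : Finset ι) (f : ι → E)
    (h : ∀ i ∈ s, ∀ j ∈ s, i ≠ j → ⟪f i, f j⟫_ℂ = 0) :
    ‖∑ i ∈ s, f i‖ ^ 2 = ∑ i ∈ s, ‖f i‖ ^ 2 := by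
  classical
  induction s using Finset.induction_on with
  | empty => simp
  | insert a s ha ih =>
    rw [Finset.sum_insert ha, Finset.sum_insert ha]
    have h1 : ⟪f a, ∑ i ∈ s, f i⟫_ℂ = 0 := by
      rw [inner_sum]
      refine Finset.sum_eq_zero fun i hi => ?_
      exact h a (Finset.mem_insert_self _ _) i (Finset.mem_insert_of_mem hi)
        (fun hh => ha (by rw [hh]; exact hi))
    have h2 := norm_add_sq_eq_norm_sq_add_norm_sq_of_inner_eq_zero _ _ h1
    have h3 := ih fun i hi j hj hij => h i (Finset.mem_insert_of_mem hi) j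
      (Finset.mem_insert_of_mem hj) hij
    rw [← h3]
    simpa [sq] using h2

theorem norm_sub_proj_le (P : Submodule ℂ E) [P.HasOrthogonalProjection] (v : E) :
    ‖v - P.starProjection v‖ ≤ ‖v‖ := by
  have h3 : Pᗮ.starProjection v = v - P.starProjection v := by
    rw [← Submodule.starProjection_orthogonal_val]
  rw [← h3]
  exact Submodule.norm_starProjection_apply_le _ _

end ortho

section basic

variable {G : Type u} {I : Type v} {J : Type z} [Group G]

/-- the inclusion of the finitely supported functions -/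
noncomputable def inc : ((G × I) →₀ ℂ) →ₗ[ℂ] EE G I := Finsupp.linearCombination ℂ dl

theorem inc_single (x : G × I) (c : ℂ) : inc (Finsupp.single x c) = c • (dl x : EE G I) := by
  unfold inc
  rw [Finsupp.linearCombination_single]

theorem span_dl_dense :
    Dense ((Submodule.span ℂ (Set.range (dl : G × I → EE G I)) : Submodule ℂ (EE G I)) :
      Set (EE G I)) := by
  rw [Submodule.dense_iff_topologicalClosure_eq_top, Submodule.topologicalClosure_eq_top_iff,
    Submodule.eq_bot_iff]
  intro f hf
  ext x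
  rw [Submodule.mem_orthogonal] at hf
  have := hf (dl x) (Submodule.subset_span ⟨x, rfl⟩)
  rw [inner_dl_left] at this
  rw [this]
  rfl

theorem inc_dense : DenseRange (inc : ((G × I) →₀ ℂ) →ₗ[ℂ] EE G I) := by
  have h : Set.range (inc : ((G × I) →₀ ℂ) →ₗ[ℂ] EE G I)
      = ((Submodule.span ℂ (Set.range (dl : G × I → EE G I)) : Submodule ℂ (EE G I)) :
      Set (EE G I)) := by
    rw [← LinearMap.coe_range]
    unfold inc
    rw [Finsupp.range_linearCombination]
  unfold DenseRange
  rw [h]
  exact span_dl_dense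

theorem clm_ext {X : Type*} [AddCommGroup X] [Module ℂ X] [TopologicalSpace X] [T2Space X]
    {A B : EE G I →L[ℂ] X} (h : ∀ x, A (dl x) = B (dl x)) : A = B := by
  apply ContinuousLinearMap.ext_on span_dl_dense
  rintro _ ⟨x, rfl⟩
  exact h x

/-- translation as a continuous linear map -/
noncomputable def trL (k : G) : EE G I →L[ℂ] EE G I :=
  LinearMap.mkContinuous
    { toFun := tr k
      map_add' := tr_add k
      map_smul' := tr_smul k } 1 (fun f => by
        change ‖tr k f‖ ≤ _
        rw [norm_tr, one_mul])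

theorem trL_apply (k : G) (f : EE G I) : trL k f = tr k f := rfl

open Classical in
theorem memlp_res (P : G × I → Prop) (f : EE G I) :
    Memℓp (fun x => if P x then f x else 0) 2 := by
  rw [memlp_two_iff]
  have h := (memlp_two_iff _).1 f.2
  refine Summable.of_nonneg_of_le (fun _ => by positivity) (fun x => ?_) h
  split_ifs
  · exact le_rfl
  · simp

open Classical in
/-- restriction to the indices with property `P` -/
noncomputable def resF (P : G × I → Prop) (f : EE G I) : EE G I :=
  ⟨fun x => if P x then f x else 0, memlp_res P f⟩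

open Classical in
theorem resF_apply (P : G × I → Prop) (f : EE G I) (x : G × I) :
    resF P f x = if P x then f x else 0 := rfl

theorem norm_sq_eq_tsum (f : EE G I) : ‖f‖ ^ 2 = ∑' x, ‖f x‖ ^ 2 := by
  have := lp.norm_rpow_eq_tsum (p := 2) (by norm_num) f
  simpa using this

theorem norm_resF_le (P : G × I → Prop) (f : EE G I) : ‖resF P f‖ ≤ ‖f‖ := by
  have h1 : ‖resF P f‖ ^ 2 ≤ ‖f‖ ^ 2 := by
    rw [norm_sq_eq_tsum, norm_sq_eq_tsum]
    refine Summable.tsum_le_tsum (fun x => ?_) ((memlp_two_iff _).1 (resF P f).2)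
      ((memlp_two_iff _).1 f.2)
    rw [resF_apply]
    split_ifs
    · exact le_rfl
    · simp
  exact (sq_le_sq₀ (norm_nonneg _) (norm_nonneg _)).1 h1

/-- restriction as a continuous linear map -/
noncomputable def res (P : G × I → Prop) : EE G I →L[ℂ] EE G I :=
  LinearMap.mkContinuous
    { toFun := resF P
      map_add' := by
        intro f g
        ext x
        change resF P (f + g) x = resF P f x + resF P g x
        simp only [resF_apply]
        split_ifs
        · rfl
        · simp
      map_smul' := by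
        intro c f
        ext x
        change resF P (c • f) x = c • resF P f x
        simp only [resF_apply]
        split_ifs
        · rfl
        · simp } 1 (fun f => by
        rw [one_mul]
        exact norm_resF_le P f)

open Classical in
theorem res_apply (P : G × I → Prop) (f : EE G I) (x : G × I) :
    res P f x = if P x then f x else 0 := rfl

theorem res_dl_pos {P : G × I → Prop} {x : G × I} (h : P x) : res P (dl x) = (dl x : EE G I) := by
  ext y
  rw [res_apply]
  split_ifs with hy
  · rfl
  · rw [dl_apply_ne]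
    rintro rfl
    exact hy h

theorem res_dl_neg {P : G × I → Prop} {x : G × I} (h : ¬ P x) : res P (dl x) = (0 : EE G I) := by
  ext y
  rw [res_apply]
  split_ifs with hy
  · rw [dl_apply_ne]
    · rfl
    · rintro rfl
      exact h hy
  · rfl

theorem res_add_res (P : G × I → Prop) (f : EE G I) : res P f + res (fun x => ¬ P x) f = f := by
  ext x
  change res P f x + res (fun x => ¬ P x) f x = f x
  rw [res_apply, res_apply]
  by_cases h : P x
  · rw [if_pos h, if_neg (not_not.2 h), add_zero]
  · rw [if_neg h, if_pos h, zero_add]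

end basic

section wand

variable {G : Type u} {I : Type v} {J : Type z} [Group G] {Ω : Type w} [LinearOrder Ω]
variable (e : EE G I →L[ℂ] EE G I) (ν : G × I → Ω)

/-- closed span of the images of the basis vectors above `t` -/
noncomputable def Sp (t : Ω) : Submodule ℂ (EE G I) :=
  (Submodule.span ℂ {y | ∃ x, t < ν x ∧ y = e (dl x)}).topologicalClosure

noncomputable instance (t : Ω) : (Sp e ν t).HasOrthogonalProjection := by
  unfold Sp
  infer_instance

theorem isClosed_Sp (t : Ω) : IsClosed (Sp e ν t : Set (EE G I)) :=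
  Submodule.isClosed_topologicalClosure _

/-- the wandering vectors -/
noncomputable def wv (x : G × I) : EE G I :=
  e (dl x) - (Sp e ν (ν x)).starProjection (e (dl x))

variable {e ν}

theorem wv_eq {t : Ω} {x : G × I} (h : ν x = t) :
    wv e ν x = e (dl x) - (Sp e ν t).starProjection (e (dl x)) := by
  subst h
  rfl

theorem mem_Sp {t : Ω} {x : G × I} (h : t < ν x) : e (dl x) ∈ Sp e ν t :=
  Submodule.le_topologicalClosure _ (Submodule.subset_span ⟨x, h, rfl⟩)

theorem Sp_anti {s t : Ω} (h : s ≤ t) : Sp e ν t ≤ Sp e ν s := by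
  apply Submodule.topologicalClosure_mono
  apply Submodule.span_mono
  rintro y ⟨x, hx, rfl⟩
  exact ⟨x, lt_of_le_of_lt h hx, rfl⟩

theorem Sp_le {t : Ω} {Q : Submodule ℂ (EE G I)} (hQ : IsClosed (Q : Set (EE G I)))
    (h : ∀ x, t < ν x → e (dl x) ∈ Q) : Sp e ν t ≤ Q := by
  apply Submodule.topologicalClosure_minimal _ _ hQ
  rw [Submodule.span_le]
  rintro y ⟨x, hx, rfl⟩
  exact h x hx

theorem wv_mem {t : Ω} {x : G × I} (h : t < ν x) : wv e ν x ∈ Sp e ν t := by
  unfold wv
  exact Submodule.sub_mem _ (mem_Sp h)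
    (Sp_anti h.le (Submodule.starProjection_apply_mem _ _))

theorem wv_orth {x : G × I} {y : EE G I} (hy : y ∈ Sp e ν (ν x)) : ⟪wv e ν x, y⟫_ℂ = 0 :=
  Submodule.starProjection_inner_eq_zero _ _ hy

theorem wv_wv {x y : G × I} (h : ν x ≠ ν y) : ⟪wv e ν x, wv e ν y⟫_ℂ = 0 := by
  rcases lt_or_gt_of_ne h with h | h
  · exact wv_orth (wv_mem h)
  · rw [← inner_conj_symm, wv_orth (wv_mem h), map_zero]

variable (e ν)

/-- the map on finitely supported functions -/
noncomputable def Fm : ((G × I) →₀ ℂ) →ₗ[ℂ] EE G I := Finsupp.linearCombination ℂ (wv e ν)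

variable {e ν}

theorem Fm_single (x : G × I) (c : ℂ) : Fm e ν (Finsupp.single x c) = c • wv e ν x := by
  unfold Fm
  rw [Finsupp.linearCombination_single]

theorem Fm_level (t : Ω) (c : (G × I) →₀ ℂ) (hc : ∀ x ∈ c.support, ν x = t) :
    Fm e ν c = e (inc c) - (Sp e ν t).starProjection (e (inc c)) := by
  induction c using Finsupp.induction with
  | zero => simp
  | single_add x a c hx ha ih =>
    have hsx : x ∈ (Finsupp.single x a + c).support := by
      rw [Finsupp.mem_support_iff, Finsupp.add_apply, Finsupp.single_eq_same,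
        Finsupp.notMem_support_iff.1 hx, add_zero]
      exact ha
    have h1 := ih fun y hy => hc y (by
      rw [Finsupp.mem_support_iff, Finsupp.add_apply, Finsupp.single_eq_of_ne (by
        rintro rfl; exact hx hy), zero_add]
      exact Finsupp.mem_support_iff.1 hy)
    have h2 := hc x hsx
    rw [map_add, map_add, h1, Fm_single, inc_single, wv_eq h2]
    simp only [map_add, map_smul, smul_sub]
    abel

theorem Fm_mem {Q : Submodule ℂ (EE G I)} (hQ : ∀ x, wv e ν x ∈ Q) (c : (G × I) →₀ ℂ) :
    Fm e ν c ∈ Q := by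
  unfold Fm
  rw [Finsupp.linearCombination_apply]
  exact Submodule.sum_mem _ fun x _ => Submodule.smul_mem _ _ (hQ x)

theorem Fm_inner (c d : (G × I) →₀ ℂ) (h : ∀ x ∈ c.support, ∀ y ∈ d.support, ν x ≠ ν y) :
    ⟪Fm e ν c, Fm e ν d⟫_ℂ = 0 := by
  unfold Fm
  rw [Finsupp.linearCombination_apply, Finsupp.linearCombination_apply, Finsupp.sum, Finsupp.sum,
    sum_inner]
  refine Finset.sum_eq_zero fun x hx => ?_
  rw [inner_sum]
  refine Finset.sum_eq_zero fun y hy => ?_
  rw [inner_smul_left, inner_smul_right, wv_wv (h x hx y hy), mul_zero, mul_zero]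

theorem inc_inner (c d : (G × I) →₀ ℂ) (h : ∀ x ∈ c.support, ∀ y ∈ d.support, x ≠ y) :
    ⟪(inc c : EE G I), inc d⟫_ℂ = 0 := by
  unfold inc
  rw [Finsupp.linearCombination_apply, Finsupp.linearCombination_apply, Finsupp.sum, Finsupp.sum,
    sum_inner]
  refine Finset.sum_eq_zero fun x hx => ?_
  rw [inner_sum]
  refine Finset.sum_eq_zero fun y hy => ?_
  rw [inner_smul_left, inner_smul_right, inner_dl_left, dl_apply_ne _ _ (h x hx y hy), mul_zero,
    mul_zero]

theorem norm_Fm_le (he : ∀ f, ‖e f‖ ≤ ‖f‖) (c : (G × I) →₀ ℂ) : ‖Fm e ν c‖ ≤ ‖(inc c : EE G I)‖ := by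
  classical
  set T : Finset Ω := c.support.image ν with hT
  set p : Ω → ((G × I) →₀ ℂ) := fun t => c.filter (fun x => ν x = t) with hp
  have hps : ∀ t, ∀ x ∈ (p t).support, ν x = t := by
    intro t x hx
    rw [hp, Finsupp.support_filter, Finset.mem_filter] at hx
    exact hx.2
  have hsum : c = ∑ t ∈ T, p t := by
    ext x
    rw [Finsupp.finsetSum_apply]
    by_cases hx : x ∈ c.support
    · rw [Finset.sum_eq_single (ν x)]
      · rw [hp]
        simp only [Finsupp.filter_apply, if_true]
      · intro t _ ht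
        rw [hp]
        simp only [Finsupp.filter_apply]
        rw [if_neg (Ne.symm ht)]
      · intro h
        exact absurd (Finset.mem_image_of_mem ν hx) h
    · have h0 : c x = 0 := Finsupp.notMem_support_iff.1 hx
      rw [h0]
      symm
      refine Finset.sum_eq_zero fun t _ => ?_
      rw [hp]
      simp only [Finsupp.filter_apply]
      rw [h0, ite_self]
  have h1 : ‖Fm e ν c‖ ^ 2 = ∑ t ∈ T, ‖Fm e ν (p t)‖ ^ 2 := by
    conv_lhs => rw [hsum, map_sum]
    apply norm_sum_sq
    intro s _ t _ hst
    apply Fm_inner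
    intro x hx y hy
    rw [hps s x hx, hps t y hy]
    exact hst
  have h2 : ‖(inc c : EE G I)‖ ^ 2 = ∑ t ∈ T, ‖(inc (p t) : EE G I)‖ ^ 2 := by
    conv_lhs => rw [hsum, map_sum]
    apply norm_sum_sq
    intro s _ t _ hst
    apply inc_inner
    rintro x hx y hy rfl
    exact hst ((hps s x hx).symm.trans (hps t x hy))
  have h3 : ‖Fm e ν c‖ ^ 2 ≤ ‖(inc c : EE G I)‖ ^ 2 := by
    rw [h1, h2]
    refine Finset.sum_le_sum fun t _ => ?_
    rw [Fm_level t (p t) (hps t)]
    gcongr
    exact (norm_sub_proj_le _ _).trans (he _)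
  exact (sq_le_sq₀ (norm_nonneg _) (norm_nonneg _)).1 h3

variable (e ν)

/-- the map which sends the basis vectors to the wandering vectors -/
noncomputable def Th : EE G I →L[ℂ] EE G I := (Fm e ν).extendOfNorm inc

variable {e ν}

theorem Th_inc (he : ∀ f, ‖e f‖ ≤ ‖f‖) (c : (G × I) →₀ ℂ) : Th e ν (inc c) = Fm e ν c :=
  LinearMap.extendOfNorm_eq inc_dense ⟨1, fun c => by rw [one_mul]; exact norm_Fm_le he c⟩ c

theorem Th_dl (he : ∀ f, ‖e f‖ ≤ ‖f‖) (x : G × I) : Th e ν (dl x) = wv e ν x := by
  have h := Th_inc (ν := ν) he (Finsupp.single x 1)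
  rw [inc_single, Fm_single, one_smul, one_smul] at h
  exact h

theorem Th_mem (he : ∀ f, ‖e f‖ ≤ ‖f‖) {Q : Submodule ℂ (EE G I)}
    (hQ : IsClosed (Q : Set (EE G I))) (h : ∀ f, e f ∈ Q) (f : EE G I) : Th e ν f ∈ Q := by
  have h1 : ∀ x, wv e ν x ∈ Q := fun x =>
    Submodule.sub_mem _ (h _) (Sp_le hQ (fun y _ => h _) (Submodule.starProjection_apply_mem _ _))
  have h2 : IsClosed {f : EE G I | Th e ν f ∈ Q} := hQ.preimage (Th e ν).continuous
  refine inc_dense.induction (P := fun f => Th e ν f ∈ Q) ?_ h2 f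
  intro f ⟨c, hc⟩
  rw [← hc, Th_inc he]
  exact Fm_mem h1 c

theorem Th_level (he : ∀ f, ‖e f‖ ≤ ‖f‖) (t : Ω) (f : EE G I) :
    Th e ν (res (fun x => ν x = t) f)
      = e (res (fun x => ν x = t) f)
        - (Sp e ν t).starProjection (e (res (fun x => ν x = t) f)) := by
  have h : (Th e ν).comp (res (fun x => ν x = t))
      = (e.comp (res (fun x => ν x = t)))
        - ((Sp e ν t).starProjection.comp (e.comp (res (fun x => ν x = t)))) := by
    apply clm_ext
    intro x
    rw [sub_apply]
    simp only [ContinuousLinearMap.comp_apply]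
    by_cases hx : ν x = t
    · rw [res_dl_pos hx, Th_dl he, wv_eq hx]
    · rw [res_dl_neg hx]
      simp
  exact congrArg (fun A : EE G I →L[ℂ] EE G I => A f) h

theorem Th_orth (he : ∀ f, ‖e f‖ ≤ ‖f‖) (t : Ω) (f g : EE G I) :
    ⟪Th e ν (res (fun x => ν x = t) g), Th e ν (res (fun x => ¬ ν x = t) f)⟫_ℂ = 0 := by
  set A := (Th e ν).comp (res (fun x => ¬ ν x = t)) with hA
  set B := (Th e ν).comp (res (fun x => ν x = t)) with hB
  have h : (ContinuousLinearMap.adjoint B).comp A = 0 := by
    apply clm_ext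
    intro x
    ext y
    rw [ContinuousLinearMap.comp_apply, ← inner_dl_left y, ContinuousLinearMap.adjoint_inner_right]
    change ⟪Th e ν (res (fun x => ν x = t) (dl y)), Th e ν (res (fun x => ¬ ν x = t) (dl x))⟫_ℂ = 0
    by_cases hx : ν x = t
    · rw [res_dl_neg (P := fun x => ¬ ν x = t) (not_not.2 hx), map_zero, inner_zero_right]
    · by_cases hy : ν y = t
      · rw [res_dl_pos (P := fun x => ¬ ν x = t) hx, res_dl_pos (P := fun x => ν x = t) hy,
          Th_dl he, Th_dl he]
        apply wv_wv
        rw [hy]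
        exact fun h => hx h.symm
      · rw [res_dl_neg (P := fun x => ν x = t) hy, map_zero, inner_zero_left]
  have h2 := congrArg (fun A : EE G I →L[ℂ] EE G I => ⟪g, A f⟫_ℂ) h
  simp only [ContinuousLinearMap.comp_apply, zero_apply, inner_zero_right] at h2
  rw [ContinuousLinearMap.adjoint_inner_right] at h2
  exact h2

theorem Th_ker (he : ∀ f, ‖e f‖ ≤ ‖f‖) {f : EE G I} (hf : Th e ν f = 0) (t : Ω) :
    e (res (fun x => ν x = t) f) ∈ Sp e ν t := by
  have h1 : Th e ν (res (fun x => ν x = t) f) = 0 := by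
    have h2 := Th_orth (ν := ν) he t f f
    have h3 : Th e ν (res (fun x => ¬ ν x = t) f) = - Th e ν (res (fun x => ν x = t) f) := by
      have h4 := congrArg (Th e ν) (res_add_res (fun x => ν x = t) f)
      rw [map_add, hf] at h4
      exact eq_neg_of_add_eq_zero_right h4
    rw [h3, inner_neg_right, neg_eq_zero, inner_self_eq_zero] at h2
    exact h2
  rw [Th_level he, sub_eq_zero] at h1
  rw [h1]
  exact Submodule.starProjection_apply_mem _ _

end wand

end Pool.Agent.W7h60.LP
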